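import Pool.Agent.Super33.Defs

set_option autoImplicit false

open MvPolynomial

namespace Pool.Agent.Super33

/-! ## The counterexample -/

/-- The one-dimensional abelian Lie algebra. -/
def G0 : Type := ℂ

noncomputable instance : AddCommGroup G0 := inferInstanceAs (AddCommGroup ℂ)
noncomputable instance : Module ℂ G0 := inferInstanceAs (Module ℂ ℂ)
noncomputable instance : Module.Finite ℂ G0 := inferInstanceAs (Module.Finite ℂ ℂ)

noncomputable instance : LieRing G0 where
  bracket _ _ := 0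
  add_lie _ _ _ := (add_zero 0).symm
  lie_add _ _ _ := (add_zero 0).symm
  lie_self _ := rfl
  leibniz_lie _ _ _ := (add_zero 0).symm

noncomputable instance : LieAlgebra ℂ G0 where
  lie_smul t _ _ := (smul_zero t).symm

/-- The two-dimensional odd part, with trivial action of `G0`. -/
def G1 : Type := Fin 2 → ℂ

noncomputable instance : AddCommGroup G1 := inferInstanceAs (AddCommGroup (Fin 2 → ℂ))
noncomputable instance : Module ℂ G1 := inferInstanceAs (Module ℂ (Fin 2 → ℂ))
noncomputable instance : Module.Finite ℂ G1 := inferInstanceAs (Module.Finite ℂ (Fin 2 → ℂ))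

noncomputable instance : LieRingModule G0 G1 where
  bracket _ _ := 0
  add_lie _ _ _ := (add_zero 0).symm
  lie_add _ _ _ := (add_zero 0).symm
  leibniz_lie _ _ _ := (add_zero 0).symm

noncomputable instance : LieModule ℂ G0 G1 where
  smul_lie t _ _ := (smul_zero t).symm
  lie_smul t _ _ := (smul_zero t).symm

theorem lie_eq_zero0 (x y : G0) : ⁅x, y⁆ = 0 := rfl
theorem lie_eq_zero1 (x : G0) (y : G1) : ⁅x, y⁆ = 0 := rfl

/-- The coordinate function `u ↦ u 0` of `G1`. -/
noncomputable def coord0 : G1 →ₗ[ℂ] ℂ := (LinearMap.proj 0 : (Fin 2 → ℂ) →ₗ[ℂ] ℂ)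

/-- The bracket of odd elements: `[x_1, x_1] = 2 z` and all other brackets of basis vectors are
zero. -/
noncomputable def exSq : G1 →ₗ[ℂ] G1 →ₗ[ℂ] G0 :=
  ((LinearMap.mul ℂ ℂ).compl₁₂ ((2 : ℂ) • coord0) coord0 : G1 →ₗ[ℂ] G1 →ₗ[ℂ] ℂ)

theorem exSq_apply (u v : G1) : exSq u v = (2 * coord0 u * coord0 v : ℂ) := rfl

/-- The superalgebra with `[x_1, x_1] = 2 z` and all other brackets of basis vectors zero. -/
noncomputable def exS : LieSuperalgebra G0 G1 where
  sq := exSq
  sq_symm u v := by
    show (2 * coord0 u * coord0 v : ℂ) = 2 * coord0 v * coord0 u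
    ring
  lie_sq x u v := by
    rw [lie_eq_zero0, lie_eq_zero1, lie_eq_zero1, map_zero, map_zero, LinearMap.zero_apply,
      add_zero]
  jacobi u v w := by simp only [lie_eq_zero1, add_zero]

/-! ### It is classical -/

theorem gl_one_eq (g : GL (Fin 1) ℂ) :
    (g : Matrix (Fin 1) (Fin 1) ℂ) =
      Matrix.scalar (Fin 1) ((g : Matrix (Fin 1) (Fin 1) ℂ) 0 0) := by
  ext i j
  fin_cases i; fin_cases j
  simp

/-- the element of `GL_1` with entry `x`. -/
noncomputable def glOf (x : ℂˣ) : GL (Fin 1) ℂ :=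
  Units.map (Matrix.scalar (Fin 1) : ℂ →+* Matrix (Fin 1) (Fin 1) ℂ).toMonoidHom x

theorem glOf_apply (x : ℂˣ) : (glOf x : Matrix (Fin 1) (Fin 1) ℂ) 0 0 = x := by
  simp [glOf]

theorem glOf_injective : Function.Injective glOf := by
  intro x y h
  apply Units.ext
  rw [← glOf_apply, h, glOf_apply]

theorem infinite_units : Infinite ℂˣ := by
  have h : Set.Infinite ({0}ᶜ : Set ℂ) := (Set.finite_singleton (0 : ℂ)).infinite_compl
  have : Infinite ({0}ᶜ : Set ℂ) := h.to_subtype
  exact Infinite.of_injective (fun x : ({0}ᶜ : Set ℂ) => Units.mk0 x.1 x.2) (by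
    intro x y hxy
    have := congrArg Units.val hxy
    exact Subtype.ext this)

theorem connected_top : Connected (⊤ : Subgroup (GL (Fin 1) ℂ)) := by
  rintro H ⟨I, hI⟩ _ hfin
  have hinf : Infinite H := by
    have := infinite_units
    have : Infinite (GL (Fin 1) ℂ) := Infinite.of_injective glOf glOf_injective
    by_contra hc
    have : Finite H := not_infinite_iff_finite.1 hc
    have hidx : H.index ≠ 0 := by
      have := hfin.index_ne_zero
      rwa [← Subgroup.relIndex, Subgroup.relIndex_top_right] at this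
    have hcard := H.card_mul_index
    rw [Nat.card_eq_zero_of_infinite (α := GL (Fin 1) ℂ)] at hcard
    rcases mul_eq_zero.1 hcard with h | h
    · rw [Nat.card_eq_zero] at h
      rcases h with h | h
      · exact h.elim ⟨1, H.one_mem⟩
      · exact hc h
    · exact hidx h
  rw [Subgroup.eq_top_iff']
  intro g
  rw [hI g]
  intro f hf
  -- the one-variable polynomial of `f`
  set p : Polynomial ℂ := aeval (fun _ => Polynomial.X) f with hp
  have heval : ∀ g : GL (Fin 1) ℂ, eval (fun ij : Fin 1 × Fin 1 =>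
      (g : Matrix (Fin 1) (Fin 1) ℂ) ij.1 ij.2) f
        = p.eval ((g : Matrix (Fin 1) (Fin 1) ℂ) 0 0) := by
    intro g
    have h1 : (aeval (fun ij : Fin 1 × Fin 1 => (g : Matrix (Fin 1) (Fin 1) ℂ) ij.1 ij.2) :
        MvPolynomial (Fin 1 × Fin 1) ℂ →ₐ[ℂ] ℂ) =
        (Polynomial.aeval ((g : Matrix (Fin 1) (Fin 1) ℂ) 0 0)).comp
          (aeval (fun _ => Polynomial.X)) := by
      apply MvPolynomial.algHom_ext
      rintro ⟨i, j⟩
      fin_cases i; fin_cases j
      simp
    have h2 := DFunLike.congr_fun h1 f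
    rw [AlgHom.comp_apply, ← hp, Polynomial.coe_aeval_eq_eval] at h2
    rw [← h2]
    exact (RingHom.congr_fun (MvPolynomial.coe_aeval_eq_eval _) f).symm
  rw [heval]
  have hp0 : p = 0 := by
    apply Polynomial.eq_zero_of_infinite_isRoot
    have hsub : Set.range (fun h : H => ((h : GL (Fin 1) ℂ) : Matrix (Fin 1) (Fin 1) ℂ) 0 0)
        ⊆ {x | p.IsRoot x} := by
      rintro _ ⟨h, rfl⟩
      show p.eval _ = 0
      rw [← heval]
      exact (hI h).1 h.2 f hf
    refine Set.Infinite.mono hsub ?_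
    apply Set.infinite_range_of_injective
    intro h h' heq
    apply Subtype.ext
    apply Units.ext
    rw [gl_one_eq, gl_one_eq (h' : GL (Fin 1) ℂ)]
    exact congrArg _ heq
  rw [hp0, Polynomial.eval_zero]

theorem reductive_top : Reductive (⊤ : Subgroup (GL (Fin 1) ℂ)) := by
  intro U _ _ _ hU
  rw [Subgroup.eq_bot_iff_forall]
  intro u hu
  obtain ⟨k, hk⟩ := hU u hu
  set a := (u : Matrix (Fin 1) (Fin 1) ℂ) 0 0 with ha
  have h1 : (u : Matrix (Fin 1) (Fin 1) ℂ) - 1 = Matrix.scalar (Fin 1) (a - 1) := by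
    rw [map_sub, map_one, ha, ← gl_one_eq]
  rw [h1, ← map_pow] at hk
  have h2 : (a - 1) ^ k = 0 := by
    have := congrFun (congrFun hk 0) 0
    simpa using this
  have h3 : a - 1 = 0 := eq_zero_of_pow_eq_zero h2
  apply Units.ext
  have h4 : a = 1 := by linear_combination h3
  rw [gl_one_eq u, ← ha, h4, map_one]
  rfl

/-- the inclusion of `G0` as the `1 × 1` matrices. -/
noncomputable def exIota : G0 →ₗ[ℂ] Matrix (Fin 1) (Fin 1) ℂ :=
  (Algebra.linearMap ℂ (Matrix (Fin 1) (Fin 1) ℂ) : ℂ →ₗ[ℂ] Matrix (Fin 1) (Fin 1) ℂ)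

theorem algebraMap_entry (z : ℂ) : (algebraMap ℂ (Matrix (Fin 1) (Fin 1) ℂ) z) 0 0 = z := by
  simp [Matrix.algebraMap_matrix_apply]

theorem exS_classical : IsClassical exS := by
  refine ⟨inferInstance, inferInstance, 1, ⊤, ⟨∅, by simp⟩, connected_top, reductive_top,
    exIota, 1, ?_, ?_, ?_, ?_, ?_⟩
  · intro x y h
    have h1 := congrFun (congrFun h 0) 0
    have h2 : ∀ z : G0, exIota z 0 0 = z := by
      intro z
      exact algebraMap_entry z
    rw [h2, h2] at h1
    exact h1
  · intro x y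
    rw [lie_eq_zero0, map_zero]
    ext i j
    fin_cases i; fin_cases j
    simp [Matrix.mul_apply, mul_comm]
  · intro A
    constructor
    · intro _ t
      obtain ⟨u, hu⟩ := Matrix.isUnit_exp (t • A)
      exact ⟨u, Subgroup.mem_top _, hu⟩
    · intro _
      refine ⟨(A 0 0 : ℂ), ?_⟩
      ext i j
      fin_cases i; fin_cases j
      exact algebraMap_entry (A 0 0)
  · intro phi u
    exact ⟨C (phi u), fun g => by simp⟩
  · intro x
    have hu := fun t : ℂ => Matrix.isUnit_exp (t • exIota x)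
    refine ⟨fun t => ⟨(hu t).unit, Subgroup.mem_top _⟩, fun t => (hu t).unit_spec, ?_⟩
    intro u phi
    rw [lie_eq_zero1, map_zero]
    exact hasDerivAt_const (0 : ℂ) (phi u)

end Pool.Agent.Super33
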