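import Mathlib

set_option autoImplicit false

open MvPolynomial

namespace Pool.Agent.Super33

/-! ## Lie superalgebras and classical Lie superalgebras -/

/-- A Lie superalgebra over the complex numbers with even part `g0` and odd part `g1`:
`g0` is a Lie algebra, `g1` a `g0`-module, and `sq u v` is the bracket `[u, v]` of two odd
elements; it is symmetric and bilinear and satisfies the super Jacobi identities. -/
structure LieSuperalgebra (g0 g1 : Type) [LieRing g0] [LieAlgebra ℂ g0]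
    [AddCommGroup g1] [Module ℂ g1] [LieRingModule g0 g1] [LieModule ℂ g0 g1] where
  sq : g1 →ₗ[ℂ] g1 →ₗ[ℂ] g0
  sq_symm : ∀ u v : g1, sq u v = sq v u
  lie_sq : ∀ (x : g0) (u v : g1), ⁅x, sq u v⁆ = sq ⁅x, u⁆ v + sq u ⁅x, v⁆
  jacobi : ∀ u v w : g1, ⁅sq u v, w⁆ + ⁅sq v w, u⁆ + ⁅sq w u, v⁆ = 0

/-- `G` is a Zariski closed subgroup of `GL_N(ℂ)`: it is the set of common zeros in `GL_N(ℂ)`
of a set of polynomials in the matrix entries. -/
def ZariskiClosed {N : ℕ} (G : Subgroup (GL (Fin N) ℂ)) : Prop :=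
  ∃ I : Set (MvPolynomial (Fin N × Fin N) ℂ), ∀ g : GL (Fin N) ℂ,
    g ∈ G ↔ ∀ f ∈ I, eval (fun ij => (g : Matrix (Fin N) (Fin N) ℂ) ij.1 ij.2) f = 0

/-- A linear algebraic group is connected iff it has no proper Zariski closed subgroup of finite
index. -/
def Connected {N : ℕ} (G : Subgroup (GL (Fin N) ℂ)) : Prop :=
  ∀ H : Subgroup (GL (Fin N) ℂ), ZariskiClosed H → H ≤ G → (H.subgroupOf G).FiniteIndex → H = G

/-- The unipotent radical is trivial: every Zariski closed normal subgroup consisting of unipotent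
matrices is trivial (in characteristic 0 closed unipotent groups are connected). -/
def Reductive {N : ℕ} (G : Subgroup (GL (Fin N) ℂ)) : Prop :=
  ∀ U : Subgroup (GL (Fin N) ℂ), ZariskiClosed U → U ≤ G → (U.subgroupOf G).Normal →
    (∀ u ∈ U, IsNilpotent ((u : Matrix (Fin N) (Fin N) ℂ) - 1)) → U = ⊥

/-- `g0 ⊕ g1` is a classical Lie superalgebra: it is finite dimensional and there is a connected
reductive linear algebraic group `G` over the complex numbers whose Lie algebra (the matrices `A`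
with `exp (t A) ∈ G` for all `t`) is identified with `g0` by an injective Lie algebra homomorphism
`iota`, and a rational representation `rho` of `G` on `g1` (its matrix coefficients are polynomials
in the matrix entries and in the inverse of the determinant) whose differential is the adjoint
action of `g0` on `g1`. -/
def IsClassical {g0 g1 : Type} [LieRing g0] [LieAlgebra ℂ g0]
    [AddCommGroup g1] [Module ℂ g1] [LieRingModule g0 g1] [LieModule ℂ g0 g1]
    (_S : LieSuperalgebra g0 g1) : Prop :=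
  Module.Finite ℂ g0 ∧ Module.Finite ℂ g1 ∧
  ∃ (N : ℕ) (G : Subgroup (GL (Fin N) ℂ)), ZariskiClosed G ∧ Connected G ∧ Reductive G ∧
  ∃ (iota : g0 →ₗ[ℂ] Matrix (Fin N) (Fin N) ℂ) (rho : Representation ℂ G g1),
    Function.Injective iota ∧
    (∀ x y : g0, iota ⁅x, y⁆ = iota x * iota y - iota y * iota x) ∧
    (∀ A : Matrix (Fin N) (Fin N) ℂ, A ∈ Set.range iota ↔
      ∀ t : ℂ, ∃ g ∈ G, (g : Matrix (Fin N) (Fin N) ℂ) = NormedSpace.exp (t • A)) ∧
    (∀ (phi : Module.Dual ℂ g1) (u : g1), ∃ P : MvPolynomial (Option (Fin N × Fin N)) ℂ,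
      ∀ g : G, phi (rho g u) = eval (fun o => o.elim
        ((((g : GL (Fin N) ℂ) : Matrix (Fin N) (Fin N) ℂ).det)⁻¹)
        (fun ij => ((g : GL (Fin N) ℂ) : Matrix (Fin N) (Fin N) ℂ) ij.1 ij.2)) P) ∧
    (∀ x : g0, ∃ gamma : ℂ → G,
      (∀ t : ℂ, ((gamma t : GL (Fin N) ℂ) : Matrix (Fin N) (Fin N) ℂ)
        = NormedSpace.exp (t • iota x)) ∧
      ∀ (u : g1) (phi : Module.Dual ℂ g1),
        HasDerivAt (fun t => phi (rho (gamma t) u)) (phi ⁅x, u⁆) 0)

/-! ## Cohen-Macaulay graded algebras -/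

/-- A (graded) algebra is Cohen-Macaulay: it contains a polynomial subalgebra (the image of an
injective algebra homomorphism `phi` from a polynomial ring in `r` variables, mapping the variables
into the set `hom` of homogeneous elements of positive degree) over which it is a finitely
generated free module. -/
def IsCM (A : Type) [Ring A] [Algebra ℂ A] (hom : Set A) : Prop :=
  ∃ (r : ℕ) (phi : MvPolynomial (Fin r) ℂ →ₐ[ℂ] A), Function.Injective phi ∧
    (∀ i, phi (X i) ∈ hom) ∧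
    @Module.Finite (MvPolynomial (Fin r) ℂ) A _ _ (Module.compHom A phi.toRingHom) ∧
    @Module.Free (MvPolynomial (Fin r) ℂ) A _ _ (Module.compHom A phi.toRingHom)

/-! ## Differential superalgebras and their cohomology -/

/-- `i` is an odd derivation of the superalgebra `A` with parity automorphism `inv`. -/
structure OddDer {A : Type} [Ring A] [Algebra ℂ A] (inv : A →ₐ[ℂ] A) (i : A →ₗ[ℂ] A) : Prop where
  mul : ∀ x y, i (x * y) = i x * y + inv x * i y
  comm : ∀ x, i (inv x) = - inv (i x)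

/-- A differential superalgebra: an algebra with a parity automorphism `inv` of square one and an
odd derivation `d` of square zero. -/
structure DSAlgebra (A : Type) [Ring A] [Algebra ℂ A] where
  inv : A →ₐ[ℂ] A
  d : A →ₗ[ℂ] A
  inv_inv : ∀ x, inv (inv x) = x
  der : OddDer inv d
  d_d : ∀ x, d (d x) = 0

theorem OddDer.map_one {A : Type} [Ring A] [Algebra ℂ A] {inv : A →ₐ[ℂ] A} {i : A →ₗ[ℂ] A}
    (h : OddDer inv i) : i 1 = 0 := by
  have h1 := h.mul 1 1
  rw [mul_one, mul_one, _root_.map_one inv, one_mul] at h1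
  simpa using h1

theorem OddDer.map_algebraMap {A : Type} [Ring A] [Algebra ℂ A] {inv : A →ₐ[ℂ] A}
    {i : A →ₗ[ℂ] A} (h : OddDer inv i) (c : ℂ) : i (algebraMap ℂ A c) = 0 := by
  rw [Algebra.algebraMap_eq_smul_one, map_smul, h.map_one, smul_zero]

namespace DSAlgebra

variable {A : Type} [Ring A] [Algebra ℂ A] (D : DSAlgebra A)

theorem rel_mul {I : Set (A →ₗ[ℂ] A)} (hI : ∀ i ∈ I, OddDer D.inv i) {c c' : A}
    (hc : ∀ i ∈ I, i c = 0 ∧ i (D.d c) = 0) (hc' : ∀ i ∈ I, i c' = 0 ∧ i (D.d c') = 0) :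
    ∀ i ∈ I, i (c * c') = 0 ∧ i (D.d (c * c')) = 0 := by
  intro i hi
  obtain ⟨h1, h2⟩ := hc i hi
  obtain ⟨h3, h4⟩ := hc' i hi
  refine ⟨by rw [(hI i hi).mul, h1, h3, zero_mul, mul_zero, add_zero], ?_⟩
  rw [D.der.mul, map_add, (hI i hi).mul, (hI i hi).mul, h2, h3, h4, (hI i hi).comm, h1]
  simp

theorem rel_add {I : Set (A →ₗ[ℂ] A)} {c c' : A}
    (hc : ∀ i ∈ I, i c = 0 ∧ i (D.d c) = 0) (hc' : ∀ i ∈ I, i c' = 0 ∧ i (D.d c') = 0) :
    ∀ i ∈ I, i (c + c') = 0 ∧ i (D.d (c + c')) = 0 := by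
  intro i hi
  obtain ⟨h1, h2⟩ := hc i hi
  obtain ⟨h3, h4⟩ := hc' i hi
  exact ⟨by rw [map_add, h1, h3, add_zero], by rw [map_add, map_add, h2, h4, add_zero]⟩

theorem rel_algebraMap {I : Set (A →ₗ[ℂ] A)} (hI : ∀ i ∈ I, OddDer D.inv i) (c : ℂ) :
    ∀ i ∈ I, i (algebraMap ℂ A c) = 0 ∧ i (D.d (algebraMap ℂ A c)) = 0 := by
  intro i hi
  exact ⟨(hI i hi).map_algebraMap c, by rw [D.der.map_algebraMap, map_zero]⟩

/-- The elements `c` such that `i c = 0` and `i (d c) = 0` for all `i` in a set `I` of odd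
derivations. -/
def rel (I : Set (A →ₗ[ℂ] A)) (hI : ∀ i ∈ I, OddDer D.inv i) : Subalgebra ℂ A where
  carrier := {c | ∀ i ∈ I, i c = 0 ∧ i (D.d c) = 0}
  mul_mem' := D.rel_mul hI
  add_mem' := D.rel_add
  algebraMap_mem' := D.rel_algebraMap hI

theorem inv_mem_rel (I : Set (A →ₗ[ℂ] A)) (hI : ∀ i ∈ I, OddDer D.inv i) :
    ∀ c ∈ D.rel I hI, D.inv c ∈ D.rel I hI := by
  intro c hc i hi
  obtain ⟨h1, h2⟩ := hc i hi
  exact ⟨by rw [(hI i hi).comm, h1, map_zero, neg_zero],
    by rw [D.der.comm, map_neg, (hI i hi).comm, h2, map_zero, neg_zero, neg_zero]⟩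

variable (B : Subalgebra ℂ A)

theorem cocycles_mul {c c' : A} (hc : c ∈ B ∧ D.d c = 0) (hc' : c' ∈ B ∧ D.d c' = 0) :
    c * c' ∈ B ∧ D.d (c * c') = 0 :=
  ⟨mul_mem hc.1 hc'.1, by rw [D.der.mul, hc.2, hc'.2, zero_mul, mul_zero, add_zero]⟩

theorem cocycles_add {c c' : A} (hc : c ∈ B ∧ D.d c = 0) (hc' : c' ∈ B ∧ D.d c' = 0) :
    c + c' ∈ B ∧ D.d (c + c') = 0 :=
  ⟨add_mem hc.1 hc'.1, by rw [map_add, hc.2, hc'.2, add_zero]⟩

theorem cocycles_algebraMap (c : ℂ) : algebraMap ℂ A c ∈ B ∧ D.d (algebraMap ℂ A c) = 0 :=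
  ⟨algebraMap_mem _ c, D.der.map_algebraMap c⟩

/-- The algebra of cocycles in a subalgebra `B`. -/
def cocycles : Subalgebra ℂ A where
  carrier := {c | c ∈ B ∧ D.d c = 0}
  mul_mem' := D.cocycles_mul B
  add_mem' := D.cocycles_add B
  algebraMap_mem' := D.cocycles_algebraMap B

theorem cohomologous_equiv :
    Equivalence (fun z z' : D.cocycles B => ∃ c ∈ B, (z : A) - z' = D.d c) := by
  refine ⟨fun z => ⟨0, zero_mem _, by simp⟩, ?_, ?_⟩
  · rintro z z' ⟨c, hc, h⟩
    exact ⟨-c, neg_mem hc, by rw [map_neg, ← h, neg_sub]⟩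
  · rintro z z' z'' ⟨c, hc, h⟩ ⟨c', hc', h'⟩
    exact ⟨c + c', add_mem hc hc', by rw [map_add, ← h, ← h']; abel⟩

theorem cohomologous_add {z z' w w' : D.cocycles B} (h : ∃ c ∈ B, (z : A) - z' = D.d c)
    (h' : ∃ c ∈ B, (w : A) - w' = D.d c) :
    ∃ c ∈ B, ((z + w : D.cocycles B) : A) - ((z' + w' : D.cocycles B) : A) = D.d c := by
  obtain ⟨c, hc, h⟩ := h
  obtain ⟨c', hc', h'⟩ := h'
  refine ⟨c + c', add_mem hc hc', ?_⟩
  rw [map_add, ← h, ← h']
  push_cast
  abel

theorem cohomologous_mul (hB : ∀ c ∈ B, D.inv c ∈ B) {z z' w w' : D.cocycles B}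
    (h : ∃ c ∈ B, (z : A) - z' = D.d c) (h' : ∃ c ∈ B, (w : A) - w' = D.d c) :
    ∃ c ∈ B, ((z * w : D.cocycles B) : A) - ((z' * w' : D.cocycles B) : A) = D.d c := by
  obtain ⟨c, hc, h⟩ := h
  obtain ⟨c', hc', h'⟩ := h'
  refine ⟨c * w + D.inv (z' : A) * c', add_mem (mul_mem hc w.2.1) (mul_mem (hB _ z'.2.1) hc'), ?_⟩
  rw [map_add, D.der.mul, D.der.mul, ← h, ← h', w.2.2, D.der.comm, z'.2.2, D.inv_inv]
  push_cast
  simp only [mul_zero, add_zero, map_zero, neg_zero, zero_mul, zero_add]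
  rw [sub_mul, mul_sub]
  abel

/-- Two cocycles in the subalgebra `B` are cohomologous if their difference is `d c` for an
element `c` of `B`; if `B` is stable under the parity automorphism, then this is a congruence of
the algebra of cocycles. -/
def cohomologous (hB : ∀ c ∈ B, D.inv c ∈ B) : RingCon (D.cocycles B) where
  r z z' := ∃ c ∈ B, (z : A) - z' = D.d c
  iseqv := D.cohomologous_equiv B
  add' := D.cohomologous_add B
  mul' := D.cohomologous_mul B hB

/-- The cohomology algebra of the subalgebra `B`. -/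
abbrev Coh (hB : ∀ c ∈ B, D.inv c ∈ B) : Type := (D.cohomologous B hB).Quotient

/-- The cohomology algebra of the subalgebra `B` is Cohen-Macaulay, where the homogeneous elements
of positive degree are the classes of the cocycles in the set `hom`. -/
def IsCMCoh (hB : ∀ c ∈ B, D.inv c ∈ B) (hom : Set A) : Prop :=
  IsCM (D.Coh B hB) {x | ∃ z : D.cocycles B, (z : A) ∈ hom ∧ (z : D.Coh B hB) = x}

end DSAlgebra

/-! ## The spectral sequence of a filtered complex -/

section filtered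

variable {V : Type} [AddCommGroup V] [Module ℂ V] (F : ℤ → Submodule ℂ V) (d : V →ₗ[ℂ] V)

/-- `Z_r^p`, the elements `c` of `F^p` with `d c` in `F^(p+r)`. -/
def Zr (r p : ℤ) : Submodule ℂ V := F p ⊓ (F (p + r)).comap d

/-- `B_r^p = Z_(r-1)^(p+1) + d Z_(r-1)^(p-r+1)`. -/
def Br (r p : ℤ) : Submodule ℂ V := Zr F d (r - 1) (p + 1) ⊔ (Zr F d (r - 1) (p - r + 1)).map d

/-- The `p`-th column `E_r^p = Z_r^p / B_r^p` of the `r`-th page (the direct sum over `q` of the
`E_r^(p,q)`). -/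
abbrev Er (r p : ℤ) : Type := (Zr F d r p) ⧸ (Br F d r p).comap (Zr F d r p).subtype

theorem d_mem_Zr (hd : ∀ x, d (d x) = 0) (r p : ℤ) :
    ∀ c ∈ Zr F d r p, d c ∈ Zr F d r (p + r) := by
  intro c hc
  refine ⟨hc.2, ?_⟩
  show d (d c) ∈ F (p + r + r)
  rw [hd]
  exact zero_mem _

theorem d_mem_Br (hd : ∀ x, d (d x) = 0) (r p : ℤ) :
    (Br F d r p).comap (Zr F d r p).subtype ≤
      ((Br F d r (p + r)).comap (Zr F d r (p + r)).subtype).comap
        (d.restrict (d_mem_Zr F d hd r p)) := by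
  intro c hc
  change d c ∈ Br F d r (p + r)
  have hc' : (c : V) ∈ Br F d r p := hc
  obtain ⟨u, hu, v, hv, huv⟩ := Submodule.mem_sup.1 hc'
  obtain ⟨w, hw, rfl⟩ := Submodule.mem_map.1 hv
  rw [← huv, map_add, hd, add_zero]
  apply Submodule.mem_sup_right
  refine Submodule.mem_map.2 ⟨u, ?_, rfl⟩
  convert hu using 1
  congr 1
  ring

/-- The differential `d_r : E_r^p → E_r^(p+r)` of the spectral sequence. -/
def dr (hd : ∀ x, d (d x) = 0) (r p : ℤ) : Er F d r p →ₗ[ℂ] Er F d r (p + r) :=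
  Submodule.mapQ _ _ (d.restrict (d_mem_Zr F d hd r p)) (d_mem_Br F d hd r p)

/-- The spectral sequence collapses at `E_2`: all differentials `d_r` with `r ≥ 2` vanish. -/
def CollapsesAtTwo (hd : ∀ x, d (d x) = 0) : Prop := ∀ r p : ℤ, 2 ≤ r → dr F d hd r p = 0

end filtered

/-! ## The cochain algebra of a Lie superalgebra -/

section cochains

variable {A : Type} [Ring A] [Algebra ℂ A] {m n : ℕ} (zeta : Fin m → A) (eta : Fin n → A)

/-- The monomial `eta_0^(e 0) ... eta_(n-1)^(e (n-1)) zeta_(i_1) ... zeta_(i_q)`, where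
`s = {i_1 < ... < i_q}`. -/
def mono (s : Finset (Fin m)) (e : Fin n → ℕ) : A :=
  ((List.finRange n).map (fun c => eta c ^ e c)).prod *
    (((List.finRange m).filter (fun i => i ∈ s)).map zeta).prod

/-- `A` is the free supercommutative algebra `Λ(zeta) ⊗ S(eta)` on odd generators `zeta` and even
generators `eta`, with parity automorphism `inv`: the monomials form a basis of `A`. -/
structure IsFreeSuper (inv : A →ₐ[ℂ] A) : Prop where
  zeta_sq : ∀ i, zeta i * zeta i = 0
  zeta_zeta : ∀ i j, zeta i * zeta j = - (zeta j * zeta i)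
  eta_eta : ∀ a b, eta a * eta b = eta b * eta a
  zeta_eta : ∀ i a, zeta i * eta a = eta a * zeta i
  inv_zeta : ∀ i, inv (zeta i) = - zeta i
  inv_eta : ∀ a, inv (eta a) = eta a
  indep : LinearIndependent ℂ
    (fun t : Finset (Fin m) × (Fin n → ℕ) => mono zeta eta t.1 t.2)
  span : Submodule.span ℂ
    (Set.range (fun t : Finset (Fin m) × (Fin n → ℕ) => mono zeta eta t.1 t.2)) = ⊤

/-- The span of the monomials of degree `k`. -/
def homog (k : ℕ) : Submodule ℂ A :=
  Submodule.span ℂ {c | ∃ (s : Finset (Fin m)) (e : Fin n → ℕ), s.card + ∑ a, e a = k ∧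
    c = mono zeta eta s e}

/-- The span of the monomials with at least `p` factors `eta`. -/
def filt (p : ℤ) : Submodule ℂ A :=
  Submodule.span ℂ {c | ∃ (s : Finset (Fin m)) (e : Fin n → ℕ), p ≤ ∑ a, (e a : ℤ) ∧
    c = mono zeta eta s e}

end cochains

section general

variable {g0 g1 : Type} [LieRing g0] [LieAlgebra ℂ g0]
    [AddCommGroup g1] [Module ℂ g1] [LieRingModule g0 g1] [LieModule ℂ g0 g1]
    {m n : ℕ}

/-- The Chevalley-Eilenberg (Koszul) complex of a Lie superalgebra in coordinates: `A` is the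
cochain algebra `Λ(g0^*) ⊗ S(g1^*)`, where `zeta` is the basis of `g0^*` dual to `b0` and `eta` the
basis of `g1^*` dual to `b1`; `D.alg.d` is the square zero odd derivation which on the generators
is the transpose of the bracket, `(d f)(x, y) = - f([x, y])`; and `D.con x` is the contraction with
`x` in `g0`, the odd derivation with `zeta_k ↦ zeta_k(x)` and `eta_c ↦ 0`. -/
structure CEAlgebra (S : LieSuperalgebra g0 g1) (b0 : Module.Basis (Fin m) ℂ g0)
    (b1 : Module.Basis (Fin n) ℂ g1) (A : Type) [Ring A] [Algebra ℂ A] where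
  alg : DSAlgebra A
  zeta : Fin m → A
  eta : Fin n → A
  free : IsFreeSuper zeta eta alg.inv
  d_zeta : ∀ k, alg.d (zeta k) =
    - (2⁻¹ : ℂ) • ∑ i, ∑ j, b0.repr ⁅b0 i, b0 j⁆ k • (zeta i * zeta j)
    - (2⁻¹ : ℂ) • ∑ a, ∑ b, b0.repr (S.sq (b1 a) (b1 b)) k • (eta a * eta b)
  d_eta : ∀ c, alg.d (eta c) = - ∑ i, ∑ a, b1.repr ⁅b0 i, b1 a⁆ c • (zeta i * eta a)
  con : g0 → A →ₗ[ℂ] A
  con_der : ∀ x, OddDer alg.inv (con x)
  con_zeta : ∀ x k, con x (zeta k) = algebraMap ℂ A (b0.repr x k)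
  con_eta : ∀ x c, con x (eta c) = 0

namespace CEAlgebra

variable {S : LieSuperalgebra g0 g1} {b0 : Module.Basis (Fin m) ℂ g0}
    {b1 : Module.Basis (Fin n) ℂ g1} {A : Type} [Ring A] [Algebra ℂ A]
    (D : CEAlgebra S b0 b1 A) (a : LieSubalgebra ℂ g0)

theorem con_oddDer : ∀ i ∈ D.con '' (a : Set g0), OddDer D.alg.inv i := by
  rintro _ ⟨x, -, rfl⟩
  exact D.con_der x

/-- The relative cochains `C(g, a)`: the cochains which vanish when an argument lies in `a` and
are invariant under `a`; by Cartan's formula these are the cochains `c` such that the contractions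
of `c` and of `d c` with all elements of `a` vanish. -/
def relCochains : Subalgebra ℂ A := D.alg.rel (D.con '' (a : Set g0)) (D.con_oddDer a)

theorem inv_mem_relCochains : ∀ c ∈ D.relCochains a, D.alg.inv c ∈ D.relCochains a :=
  D.alg.inv_mem_rel _ (D.con_oddDer a)

/-- The graded algebra `H(g, a; ℂ)`, the cohomology algebra of the relative cochains, is
Cohen-Macaulay. -/
def IsCohenMacaulay : Prop :=
  D.alg.IsCMCoh (D.relCochains a) (D.inv_mem_relCochains a)
    {c | ∃ k : ℕ, 0 < k ∧ c ∈ homog D.zeta D.eta k}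

/-- `F^p C(g, a)`: the relative cochains which are combinations of monomials with at least `p`
factors from `g1^*` (a cochain of degree `n` lies in it iff it vanishes whenever `n - p + 1` of
its arguments lie in `g0`). -/
def F (p : ℤ) : Submodule ℂ A :=
  Subalgebra.toSubmodule (D.relCochains a) ⊓ filt D.zeta D.eta p

/-- The spectral sequence of the filtration `F` collapses at `E_2`. -/
def Collapses : Prop := CollapsesAtTwo (D.F a) D.alg.d D.alg.d_d

end CEAlgebra

end general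

end Pool.Agent.Super33
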