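import Pool.Agent.Super33.Classical

set_option autoImplicit false

open MvPolynomial

namespace Pool.Agent.Super33

/-! ## The cohomology of the counterexample relative to `0` -/

/-- The polynomial ring `S(g1^*)` of the example. -/
abbrev R2 : Type := MvPolynomial (Fin 2) ℂ

/-- The polynomial ring in one variable. -/
abbrev P1 : Type := MvPolynomial (Fin 1) ℂ

/-- The cochain algebra of the example: `r + s ζ` with `ζ^2 = 0`. -/
abbrev DA : Type := DualNumber R2

/-- the basis `z` of `G0`. -/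
noncomputable def exb0 : Module.Basis (Fin 1) ℂ G0 :=
  (Module.Basis.singleton (Fin 1) ℂ : Module.Basis (Fin 1) ℂ ℂ)

/-- the basis `x_1, x_2` of `G1`. -/
noncomputable def exb1 : Module.Basis (Fin 2) ℂ G1 :=
  (Pi.basisFun ℂ (Fin 2) : Module.Basis (Fin 2) ℂ (Fin 2 → ℂ))

theorem exb0_repr (x : ℂ) (k : Fin 1) : exb0.repr (x : ℂ) k = x := by
  exact Module.Basis.singleton_repr (Fin 1) ℂ x k

theorem coord0_exb1 (a : Fin 2) : coord0 (exb1 a) = if a = 0 then 1 else 0 := by
  show (Pi.basisFun ℂ (Fin 2) a : Fin 2 → ℂ) 0 = _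
  rw [Pi.basisFun_apply]
  fin_cases a <;> simp

theorem repr_sq (a b : Fin 2) (k : Fin 1) :
    exb0.repr (exS.sq (exb1 a) (exb1 b)) k = if a = 0 ∧ b = 0 then 2 else 0 := by
  have h : exS.sq (exb1 a) (exb1 b) = (2 * coord0 (exb1 a) * coord0 (exb1 b) : ℂ) := rfl
  rw [h, exb0_repr, coord0_exb1, coord0_exb1]
  fin_cases a <;> fin_cases b <;> simp

/-- the cochain `r + s ζ`. -/
noncomputable def el (r s : R2) : DA := (r, s)

theorem fst_el (r s : R2) : (el r s).fst = r := rfl
theorem snd_el (r s : R2) : (el r s).snd = s := rfl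

theorem da_ext {x y : DA} (h1 : x.fst = y.fst) (h2 : x.snd = y.snd) : x = y :=
  TrivSqZeroExt.ext h1 h2

theorem algebraMap_eq (c : ℂ) : algebraMap ℂ DA c = el (C c) 0 := rfl

/-- the parity automorphism. -/
noncomputable def exInv : DA →ₐ[ℂ] DA :=
  AlgHom.ofLinearMap
    { toFun := fun c => el c.fst (-c.snd)
      map_add' := by
        intro x y
        apply da_ext
        · simp [fst_el]
        · simp [snd_el]; ring
      map_smul' := by
        intro t x
        apply da_ext
        · simp [fst_el]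
        · simp [snd_el] }
    (by
      apply da_ext
      · simp [fst_el]
      · simp [snd_el])
    (by
      intro x y
      apply da_ext
      · simp [fst_el]
      · simp [snd_el, fst_el]; ring)

theorem exInv_fst (c : DA) : (exInv c).fst = c.fst := rfl
theorem exInv_snd (c : DA) : (exInv c).snd = -c.snd := rfl

/-- `c ↦ (w * s)` for `c = r + s ζ`. -/
noncomputable def mulSnd (w : R2) : DA →ₗ[ℂ] DA where
  toFun := fun c => el (w * c.snd) 0
  map_add' := by
    intro x y
    apply da_ext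
    · simp [fst_el]; ring
    · simp [snd_el]
  map_smul' := by
    intro t x
    apply da_ext
    · simp [fst_el]
    · simp [snd_el]

theorem mulSnd_fst (w : R2) (c : DA) : (mulSnd w c).fst = w * c.snd := rfl
theorem mulSnd_snd (w : R2) (c : DA) : (mulSnd w c).snd = 0 := rfl

theorem mulSnd_der (w : R2) : OddDer exInv (mulSnd w) := by
  constructor
  · intro x y
    apply da_ext
    · simp [mulSnd_fst, exInv_fst]
      ring
    · simp [mulSnd_fst, exInv_snd, mulSnd_snd]
      ring
  · intro x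
    apply da_ext
    · simp [mulSnd_fst, exInv_fst, exInv_snd]
    · simp [mulSnd_snd, exInv_snd]

/-- the differential superalgebra of the example. -/
noncomputable def exAlg : DSAlgebra DA where
  inv := exInv
  d := mulSnd (-(X 0 ^ 2))
  inv_inv := by
    intro x
    apply da_ext
    · rw [exInv_fst, exInv_fst]
    · rw [exInv_snd, exInv_snd, neg_neg]
  der := mulSnd_der _
  d_d := by
    intro x
    apply da_ext
    · rw [mulSnd_fst, mulSnd_snd, mul_zero]; rfl
    · rfl

/-- the generator dual to `z`. -/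
noncomputable def exZeta (_ : Fin 1) : DA := el 0 1

/-- the generators dual to `x_1`, `x_2`. -/
noncomputable def exEta (c : Fin 2) : DA := el (X c) 0

theorem el_mul (r s r' s' : R2) : el r s * el r' s' = el (r * r') (r * s' + s * r') := by
  apply da_ext
  · simp [fst_el]
  · simp [fst_el, snd_el]

theorem el_pow (r : R2) (k : ℕ) : el r 0 ^ k = el (r ^ k) 0 := by
  induction k with
  | zero => rw [pow_zero, pow_zero]; rfl
  | succ k ih => rw [pow_succ, ih, el_mul, pow_succ, mul_zero, zero_mul, add_zero]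

/-- the monomial `y_1^(e 0) y_2^(e 1)`. -/
noncomputable def mon (e : Fin 2 → ℕ) : R2 := X 0 ^ e 0 * X 1 ^ e 1

theorem mono_eq (s : Finset (Fin 1)) (e : Fin 2 → ℕ) :
    mono exZeta exEta s e = if 0 ∈ s then el 0 (mon e) else el (mon e) 0 := by
  have h1 : (List.map (fun c => exEta c ^ e c) (List.finRange 2)).prod = el (mon e) 0 := by
    have : List.finRange 2 = [0, 1] := rfl
    rw [this, List.map_cons, List.map_cons, List.map_nil, List.prod_cons, List.prod_cons,
      List.prod_nil, mul_one]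
    unfold exEta
    rw [el_pow, el_pow, el_mul, mul_zero, zero_mul, add_zero]
    rfl
  have h2 : List.finRange 1 = [0] := rfl
  unfold mono
  rw [h1, h2]
  by_cases h : 0 ∈ s
  · rw [if_pos h, List.filter_cons_of_pos (by simpa using h), List.filter_nil, List.map_cons,
      List.map_nil, List.prod_cons, List.prod_nil, mul_one]
    unfold exZeta
    rw [el_mul, mul_zero, mul_one, zero_mul, add_zero]
  · rw [if_neg h, List.filter_cons_of_neg (by simpa using h), List.filter_nil,
      List.map_nil, List.prod_nil, mul_one]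

/-- the basis of `r + s ζ`. -/
noncomputable def daEquiv : (R2 × R2) ≃ₗ[ℂ] DA where
  toFun := fun w => el w.1 w.2
  invFun := fun c => (c.fst, c.snd)
  map_add' := by
    intro x y
    rfl
  map_smul' := by
    intro t x
    rfl
  left_inv := by
    intro x
    rfl
  right_inv := by
    intro x
    rfl

noncomputable def daBasis : Module.Basis ((Fin 2 →₀ ℕ) ⊕ (Fin 2 →₀ ℕ)) ℂ DA :=
  ((basisMonomials (Fin 2) ℂ).prod (basisMonomials (Fin 2) ℂ)).map daEquiv

/-- the indexing of the monomials. -/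
noncomputable def sig (t : Finset (Fin 1) × (Fin 2 → ℕ)) : (Fin 2 →₀ ℕ) ⊕ (Fin 2 →₀ ℕ) :=
  if 0 ∈ t.1 then Sum.inr (Finsupp.equivFunOnFinite.symm t.2)
  else Sum.inl (Finsupp.equivFunOnFinite.symm t.2)

theorem mon_eq (e : Fin 2 → ℕ) :
    basisMonomials (Fin 2) ℂ (Finsupp.equivFunOnFinite.symm e) = mon e := by
  rw [coe_basisMonomials]
  show monomial (Finsupp.equivFunOnFinite.symm e) 1 = mon e
  rw [monomial_eq, C_1, one_mul, Finsupp.prod_fintype _ _ (by simp),
    Fin.prod_univ_two]
  rfl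

theorem daBasis_sig (t : Finset (Fin 1) × (Fin 2 → ℕ)) :
    daBasis (sig t) = mono exZeta exEta t.1 t.2 := by
  rw [mono_eq]
  unfold sig daBasis
  by_cases h : 0 ∈ t.1
  · rw [if_pos h, if_pos h, Module.Basis.map_apply]
    show el _ _ = _
    rw [Module.Basis.prod_apply_inr_fst, Module.Basis.prod_apply_inr_snd, mon_eq]
  · rw [if_neg h, if_neg h, Module.Basis.map_apply]
    show el _ _ = _
    rw [Module.Basis.prod_apply_inl_fst, Module.Basis.prod_apply_inl_snd, mon_eq]

theorem sig_injective : Function.Injective sig := by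
  rintro ⟨s, e⟩ ⟨s', e'⟩ h
  unfold sig at h
  by_cases h1 : 0 ∈ s <;> by_cases h2 : 0 ∈ s' <;>
    simp only [h1, h2, if_true, if_false, reduceCtorEq, Sum.inr.injEq, Sum.inl.injEq,
      EmbeddingLike.apply_eq_iff_eq] at h
  · subst h
    congr 1
    ext i
    rw [Subsingleton.elim i 0]
    exact iff_of_true h1 h2
  · subst h
    congr 1
    ext i
    rw [Subsingleton.elim i 0]
    exact iff_of_false h1 h2

theorem sig_surjective : Function.Surjective sig := by
  rintro (f | f)
  · refine ⟨(∅, Finsupp.equivFunOnFinite f), ?_⟩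
    simp [sig]
  · refine ⟨({0}, Finsupp.equivFunOnFinite f), ?_⟩
    simp [sig]

theorem ex_free : IsFreeSuper exZeta exEta exInv where
  zeta_sq := by
    intro i
    unfold exZeta
    rw [el_mul]
    simp [el]
    rfl
  zeta_zeta := by
    intro i j
    unfold exZeta
    rw [el_mul]
    apply da_ext <;> simp [fst_el, snd_el]
  eta_eta := by
    intro a b
    exact mul_comm _ _
  zeta_eta := by
    intro a b
    exact mul_comm _ _
  inv_zeta := by
    intro i
    apply da_ext
    · simp [exInv_fst, exZeta, fst_el]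
    · simp [exInv_snd, exZeta, snd_el]
  inv_eta := by
    intro i
    apply da_ext
    · simp [exInv_fst]
    · simp [exInv_snd, exEta, snd_el]
  indep := by
    have h : (fun t : Finset (Fin 1) × (Fin 2 → ℕ) => mono exZeta exEta t.1 t.2) =
        daBasis ∘ sig := by
      funext t
      exact (daBasis_sig t).symm
    rw [h]
    exact daBasis.linearIndependent.comp sig sig_injective
  span := by
    have h : (fun t : Finset (Fin 1) × (Fin 2 → ℕ) => mono exZeta exEta t.1 t.2) =
        daBasis ∘ sig := by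
      funext t
      exact (daBasis_sig t).symm
    rw [h, Set.range_comp, sig_surjective.range_eq, Set.image_univ]
    exact daBasis.span_eq

theorem mulSnd_exZeta (z : ℂ) (k : Fin 1) : mulSnd (C z) (exZeta k) = algebraMap ℂ DA z := by
  rw [algebraMap_eq]
  apply da_ext
  · rw [mulSnd_fst]
    simp [exZeta, snd_el, fst_el]
  · rfl

/-- the Chevalley-Eilenberg complex of the example. -/
noncomputable def exD : CEAlgebra exS exb0 exb1 DA where
  alg := exAlg
  zeta := exZeta
  eta := exEta
  free := ex_free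
  d_zeta := by
    intro k
    simp only [lie_eq_zero0, map_zero, Finsupp.coe_zero, Pi.zero_apply, zero_smul,
      Finset.sum_const_zero, smul_zero, zero_sub, repr_sq, Fin.sum_univ_two]
    simp only [and_self, if_true, one_ne_zero, and_false, false_and, if_false, zero_smul,
      add_zero]
    show mulSnd (-(X 0 ^ 2)) (exZeta k) = _
    rw [inv_smul_smul₀ two_ne_zero]
    unfold exEta exZeta
    rw [el_mul]
    apply da_ext
    · rw [mulSnd_fst, TrivSqZeroExt.fst_neg, snd_el, fst_el]
      ring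
    · rw [mulSnd_snd, TrivSqZeroExt.snd_neg, snd_el]
      ring
  d_eta := by
    intro c
    simp only [lie_eq_zero1, map_zero, Finsupp.coe_zero, Pi.zero_apply, zero_smul,
      Finset.sum_const_zero, neg_zero]
    show mulSnd (-(X 0 ^ 2)) (exEta c) = 0
    apply da_ext
    · rw [mulSnd_fst]
      simp [exEta, snd_el]
    · rfl
  con := fun x => mulSnd (C x)
  con_der := fun x => mulSnd_der _
  con_zeta := by
    intro x k
    exact (mulSnd_exZeta x k).trans (congrArg (algebraMap ℂ DA) (exb0_repr x k).symm)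
  con_eta := by
    intro x c
    apply da_ext
    · rw [mulSnd_fst]
      simp [exEta, snd_el]
    · rfl

theorem exd_apply (c : DA) : exD.alg.d c = el (-(X 0 ^ 2) * c.snd) 0 := rfl

theorem el_eta (c : DA) : c = el c.fst c.snd := rfl

theorem el_inj {r s r' s' : R2} (h : el r s = el r' s') : r = r' ∧ s = s' := by
  have h1 : (el r s).fst = (el r' s').fst := congrArg _ h
  have h2 : (el r s).snd = (el r' s').snd := congrArg _ h
  exact ⟨h1, h2⟩

theorem mem_rel (c : DA) : c ∈ exD.relCochains ⊥ := by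
  rintro _ ⟨x, hx, rfl⟩
  have hx0 : x = 0 := (LieSubalgebra.mem_bot x).1 hx
  subst hx0
  have h : ∀ c : DA, exD.con (0 : G0) c = 0 := by
    intro c
    show mulSnd (C 0) c = 0
    rw [C_0]
    apply da_ext
    · rw [mulSnd_fst, zero_mul]
      rfl
    · rfl
  exact ⟨h _, h _⟩

theorem el_cocycle (r : R2) : el r 0 ∈ exD.alg.cocycles (exD.relCochains ⊥) := by
  refine ⟨mem_rel _, ?_⟩
  rw [exd_apply, snd_el, mul_zero]
  rfl

theorem cocycle_iff (c : DA) :
    c ∈ exD.alg.cocycles (exD.relCochains ⊥) ↔ ∃ r : R2, c = el r 0 := by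
  constructor
  · rintro ⟨-, h⟩
    rw [exd_apply] at h
    have h2 := (el_inj (h.trans (show (0 : DA) = el 0 0 from rfl))).1
    have h3 : c.snd = 0 := by
      rcases mul_eq_zero.1 h2 with h | h
      · exact absurd h (neg_ne_zero.2 (pow_ne_zero 2 (X_ne_zero 0)))
      · exact h
    exact ⟨c.fst, by rw [← h3]; rfl⟩
  · rintro ⟨r, rfl⟩
    exact el_cocycle r

/-- the cocycle given by a polynomial. -/
noncomputable def toCocycle : R2 →ₐ[ℂ] exD.alg.cocycles (exD.relCochains ⊥) :=
  AlgHom.codRestrict (TrivSqZeroExt.inlAlgHom ℂ R2 R2) _ el_cocycle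

theorem toCocycle_coe (r : R2) : (toCocycle r : DA) = el r 0 := rfl

theorem toCocycle_surjective : Function.Surjective toCocycle := by
  rintro ⟨c, hc⟩
  obtain ⟨r, rfl⟩ := (cocycle_iff c).1 hc
  exact ⟨r, rfl⟩

/-- the cohomology ring of the example. -/
abbrev HH : Type := exD.alg.Coh (exD.relCochains ⊥) (exD.inv_mem_relCochains ⊥)

/-- the cohomology class of a polynomial. -/
noncomputable def kap : R2 →ₐ[ℂ] HH :=
  (RingCon.mkₐ ℂ (exD.alg.cohomologous (exD.relCochains ⊥) (exD.inv_mem_relCochains ⊥))).comp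
    toCocycle

theorem kap_surjective : Function.Surjective kap :=
  (RingCon.mkₐ_surjective (α := ℂ) (exD.alg.cohomologous (exD.relCochains ⊥)
    (exD.inv_mem_relCochains ⊥))).comp toCocycle_surjective

theorem kap_eq_iff (r r' : R2) : kap r = kap r' ↔ (X 0 ^ 2 : R2) ∣ r - r' := by
  have h0 : kap r = kap r' ↔ exD.alg.cohomologous (exD.relCochains ⊥)
      (exD.inv_mem_relCochains ⊥) (toCocycle r) (toCocycle r') :=
    (RingCon.eq (exD.alg.cohomologous (exD.relCochains ⊥) (exD.inv_mem_relCochains ⊥)))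
  rw [h0]
  have h1 : exD.alg.cohomologous (exD.relCochains ⊥)
      (exD.inv_mem_relCochains ⊥) (toCocycle r) (toCocycle r') ↔
      ∃ c ∈ exD.relCochains ⊥, el r 0 - el r' 0 = exD.alg.d c := Iff.rfl
  have h2 : el r 0 - el r' 0 = el (r - r') 0 := by
    apply da_ext
    · rfl
    · show (0 : R2) - 0 = 0
      exact sub_zero 0
  rw [h1]
  constructor
  · rintro ⟨c, -, hc⟩
    rw [exd_apply, h2] at hc
    exact ⟨-c.snd, by rw [(el_inj hc).1]; ring⟩
  · rintro ⟨s, hs⟩
    refine ⟨el 0 (-s), mem_rel _, ?_⟩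
    rw [exd_apply, h2, snd_el, hs]
    congr 1
    ring

/-! ### It is Cohen-Macaulay -/

/-- the inclusion of `ℂ[y_2]`. -/
noncomputable def ren : P1 →ₐ[ℂ] R2 := rename (fun _ => 1)

/-- the subring `ℂ[y_2]` of the cohomology ring. -/
noncomputable def phi : P1 →ₐ[ℂ] HH := kap.comp ren

/-- `ℂ[y_1, y_2]` as polynomials in `y_1`. -/
noncomputable def psi : R2 →ₐ[ℂ] Polynomial P1 :=
  aeval (fun i : Fin 2 => if i = 0 then Polynomial.X else Polynomial.C (X 0))

theorem psi_ren (p : P1) : psi (ren p) = Polynomial.C p := by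
  have h : (psi.comp ren : P1 →ₐ[ℂ] Polynomial P1) = (Algebra.ofId P1 _).restrictScalars ℂ := by
    apply MvPolynomial.algHom_ext
    intro i
    fin_cases i
    simp [psi, ren, Algebra.ofId_apply]
  exact DFunLike.congr_fun h p

theorem psi_X0 : psi (X 0) = Polynomial.X := by
  simp [psi]

theorem normal_form (r : R2) : ∃ (p q : P1) (s : R2), r = ren p + ren q * X 0 + X 0 ^ 2 * s := by
  induction r using MvPolynomial.induction_on with
  | C a => exact ⟨C a, 0, 0, by simp [ren]⟩
  | add r r' h h' =>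
    obtain ⟨p, q, s, h⟩ := h
    obtain ⟨p', q', s', h'⟩ := h'
    exact ⟨p + p', q + q', s + s', by rw [h, h', map_add, map_add]; ring⟩
  | mul_X r i h =>
    obtain ⟨p, q, s, h⟩ := h
    fin_cases i
    · refine ⟨0, p, ren q + X 0 * s, ?_⟩
      rw [h, map_zero]
      simp only [Fin.zero_eta, Fin.isValue]
      ring
    · refine ⟨p * X 0, q * X 0, s * X 1, ?_⟩
      have : ren (X 0) = X 1 := by simp [ren]
      rw [h, map_mul, map_mul, this]
      simp only [Fin.mk_one, Fin.isValue]
      ring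

theorem coeff_of_dvd (p q : P1) (h : (X 0 ^ 2 : R2) ∣ ren p + ren q * X 0) : p = 0 ∧ q = 0 := by
  have h1 : (Polynomial.X ^ 2 : Polynomial P1) ∣ Polynomial.C p + Polynomial.C q * Polynomial.X := by
    have := map_dvd psi h
    rwa [map_pow, map_add, map_mul, psi_ren, psi_ren, psi_X0] at this
  rw [Polynomial.X_pow_dvd_iff] at h1
  have h2 := h1 0 (by norm_num)
  have h3 := h1 1 (by norm_num)
  constructor
  · simpa using h2
  · simpa [Polynomial.coeff_C] using h3

theorem cm_of (A : Type) [Ring A] [Algebra ℂ A] (hom : Set A) (g : P1 →ₐ[ℂ] A) (x : A)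
    (hom' : ∀ i, g (X i) ∈ hom)
    (hinj : ∀ p q : P1, g p + g q * x = 0 → p = 0 ∧ q = 0)
    (hsurj : ∀ a : A, ∃ p q : P1, g p + g q * x = a) : IsCM A hom := by
  refine ⟨1, g, ?_, hom', ?_⟩
  · intro p q h
    have := hinj (p - q) 0 (by rw [map_sub, h, sub_self, map_zero, zero_mul, add_zero])
    exact sub_eq_zero.1 this.1
  let inst : Module P1 A := Module.compHom _ g.toRingHom
  have hsmul : ∀ (p : P1) (a : A), p • a = g p * a := fun _ _ => rfl
  let f : (P1 × P1) →ₗ[P1] A :=
    { toFun := fun w => g w.1 + g w.2 * x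
      map_add' := by
        intro u v
        show g (u.1 + v.1) + g (u.2 + v.2) * x = _
        rw [map_add, map_add, add_mul]
        abel
      map_smul' := by
        intro p u
        show g (p * u.1) + g (p * u.2) * x = _
        rw [RingHom.id_apply, hsmul, map_mul, map_mul, mul_add, mul_assoc] }
  have hinj' : Function.Injective f := by
    rw [injective_iff_map_eq_zero]
    rintro ⟨p, q⟩ h
    have h1 := hinj p q h
    rw [h1.1, h1.2]
    rfl
  have hsurj' : Function.Surjective f := by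
    intro a
    obtain ⟨p, q, h⟩ := hsurj a
    exact ⟨(p, q), h⟩
  let e := LinearEquiv.ofBijective f ⟨hinj', hsurj'⟩
  exact ⟨Module.Finite.equiv e, Module.Free.of_equiv e⟩

theorem kap_normal (p q : P1) : phi p + phi q * kap (X 0) = kap (ren p + ren q * X 0) := by
  rw [map_add, map_mul]
  rfl

theorem X1_homog : el (X 1) 0 ∈ homog exD.zeta exD.eta 1 := by
  refine Submodule.subset_span ⟨∅, ![0, 1], by simp, ?_⟩
  have := mono_eq ∅ ![0, 1]
  rw [if_neg (Finset.notMem_empty 0)] at this
  refine Eq.trans ?_ this.symm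
  congr 1
  simp [mon]

theorem exD_cm : exD.IsCohenMacaulay ⊥ := by
  refine cm_of HH _ phi (kap (X 0)) ?_ ?_ ?_
  · intro i
    refine ⟨toCocycle (X 1), ⟨1, one_pos, X1_homog⟩, ?_⟩
    show kap (X 1) = kap (ren (X i))
    congr 1
    simp [ren]
  · intro p q h
    rw [kap_normal, ← map_zero kap, kap_eq_iff, sub_zero] at h
    exact coeff_of_dvd p q h
  · intro a
    obtain ⟨r, rfl⟩ := kap_surjective a
    obtain ⟨p, q, s, h⟩ := normal_form r
    refine ⟨p, q, ?_⟩
    rw [kap_normal, kap_eq_iff, h]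
    exact ⟨-s, by ring⟩

/-! ### The spectral sequence does not collapse -/

/-- `ℂ[y_1, y_2] → ℂ[T]`. -/
noncomputable def theta : R2 →ₐ[ℂ] Polynomial ℂ := aeval (fun _ => Polynomial.X)

theorem theta_X (i : Fin 2) : theta (X i) = Polynomial.X := by simp [theta]

theorem theta_mon (e : Fin 2 → ℕ) : theta (mon e) = Polynomial.X ^ (e 0 + e 1) := by
  unfold mon
  rw [map_mul, map_pow, map_pow, theta_X, theta_X, pow_add]

theorem filt_dvd (k : ℕ) (c : DA) (h : c ∈ filt exD.zeta exD.eta (k : ℤ)) :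
    (Polynomial.X ^ k : Polynomial ℂ) ∣ theta c.fst ∧
      (Polynomial.X ^ k : Polynomial ℂ) ∣ theta c.snd := by
  unfold filt at h
  induction h using Submodule.span_induction with
  | mem c hc =>
    obtain ⟨s, e, he, hc⟩ := hc
    have h1 : c = if 0 ∈ s then el 0 (mon e) else el (mon e) 0 := hc.trans (mono_eq s e)
    have h2 : k ≤ e 0 + e 1 := by
      rw [Fin.sum_univ_two] at he
      exact_mod_cast he
    have h3 : (Polynomial.X ^ k : Polynomial ℂ) ∣ theta (mon e) := by
      rw [theta_mon]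
      exact pow_dvd_pow _ h2
    by_cases h0 : 0 ∈ s
    · rw [if_pos h0] at h1
      rw [h1, fst_el, snd_el, map_zero]
      exact ⟨dvd_zero _, h3⟩
    · rw [if_neg h0] at h1
      rw [h1, fst_el, snd_el, map_zero]
      exact ⟨h3, dvd_zero _⟩
  | zero => exact ⟨by simp, by simp⟩
  | add x y _ _ hx hy =>
    rw [TrivSqZeroExt.fst_add, TrivSqZeroExt.snd_add, map_add, map_add]
    exact ⟨dvd_add hx.1 hy.1, dvd_add hx.2 hy.2⟩
  | smul t x _ hx =>
    rw [TrivSqZeroExt.fst_smul, TrivSqZeroExt.snd_smul, map_smul, map_smul]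
    rw [Algebra.smul_def, Algebra.smul_def]
    exact ⟨Dvd.dvd.mul_left hx.1 _, Dvd.dvd.mul_left hx.2 _⟩

theorem d_mem_Br_of_dr_eq_zero {V : Type} [AddCommGroup V] [Module ℂ V] (F : ℤ → Submodule ℂ V)
    (d : V →ₗ[ℂ] V) (hd : ∀ x, d (d x) = 0) (r p : ℤ) (h : dr F d hd r p = 0) {c : V}
    (hc : c ∈ Zr F d r p) : d c ∈ Br F d r (p + r) := by
  have h1 := LinearMap.congr_fun h (Submodule.Quotient.mk ⟨c, hc⟩)
  rw [dr, Submodule.mapQ_apply, LinearMap.zero_apply, Submodule.Quotient.mk_eq_zero] at h1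
  exact h1

theorem exD_not_collapses : ¬ exD.Collapses ⊥ := by
  intro hcol
  have hz0 : el 0 1 ∈ filt exD.zeta exD.eta 0 := by
    refine Submodule.subset_span ⟨{0}, 0, by simp, ?_⟩
    have := mono_eq {0} 0
    rw [if_pos (Finset.mem_singleton_self 0)] at this
    refine Eq.trans ?_ this.symm
    congr 1
    simp [mon]
  have hd0 : exD.alg.d (el 0 1) = el (-(X 0 ^ 2)) 0 := by
    rw [exd_apply, snd_el, mul_one]
  have hz2 : el (-(X 0 ^ 2)) 0 ∈ filt exD.zeta exD.eta (0 + 2) := by
    have h1 : el (X 0 ^ 2) 0 ∈ filt exD.zeta exD.eta (0 + 2) := by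
      refine Submodule.subset_span ⟨∅, ![2, 0], by simp, ?_⟩
      have := mono_eq ∅ ![2, 0]
      rw [if_neg (Finset.notMem_empty 0)] at this
      refine Eq.trans ?_ this.symm
      congr 1
      simp [mon]
    have h2 : el (-(X 0 ^ 2)) 0 = - el (X 0 ^ 2) 0 := by
      apply da_ext
      · rfl
      · show (0 : R2) = - 0
        exact neg_zero.symm
    rw [h2]
    exact neg_mem h1
  have hz : el 0 1 ∈ Zr (exD.F ⊥) exD.alg.d 2 0 := by
    refine Submodule.mem_inf.2 ⟨⟨mem_rel _, hz0⟩, ?_⟩
    rw [Submodule.mem_comap, hd0]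
    exact ⟨mem_rel _, hz2⟩
  have h2 := d_mem_Br_of_dr_eq_zero _ _ exD.alg.d_d 2 0 (hcol 2 0 le_rfl) hz
  obtain ⟨u, hu, v, hv, huv⟩ := Submodule.mem_sup.1 h2
  obtain ⟨w, hw, hwv⟩ := Submodule.mem_map.1 hv
  have hu3 : u ∈ filt exD.zeta exD.eta ((3 : ℕ) : ℤ) := (Submodule.mem_inf.1 hu).1.2
  have hw1 : w ∈ filt exD.zeta exD.eta ((1 : ℕ) : ℤ) := (Submodule.mem_inf.1 hw).1.2
  have hu3' := (filt_dvd 3 u hu3).1
  have hw1' := (filt_dvd 1 w hw1).2
  have h5 : theta (u.fst + v.fst) = -(Polynomial.X ^ 2) := by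
    have h6 : u.fst + v.fst = -(X 0 ^ 2) := by
      rw [← TrivSqZeroExt.fst_add, huv, hd0, fst_el]
    rw [h6, map_neg, map_pow, theta_X]
  have h7 : (Polynomial.X ^ 3 : Polynomial ℂ) ∣ theta v.fst := by
    rw [← hwv, exd_apply, fst_el, map_mul, map_neg, map_pow, theta_X]
    obtain ⟨g, hg⟩ := hw1'
    rw [hg]
    exact ⟨-g, by ring⟩
  have h8 : (Polynomial.X ^ 3 : Polynomial ℂ) ∣ -(Polynomial.X ^ 2) := by
    rw [← h5, map_add]
    exact dvd_add hu3' h7
  rw [Polynomial.X_pow_dvd_iff] at h8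
  have h9 := h8 2 (by norm_num)
  simp at h9

end Pool.Agent.Super33
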